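import Pool.Agent.H28.GN.T1
import Pool.Agent.H67.LF.PIR

/-!
Theorem G, row PRI: the inequality for a pair of processes (adapted from helper19, row PIRV).
-/

set_option autoImplicit false

open MeasureTheory ProbabilityTheory Filter Topology Finset
open scoped Nat ENNReal

namespace Pool.Agent.H82.GN

open Pool.Agent.H24.T2 (Pset)
open Pool.Agent.H67.AG (avgP ul Inv TT Fac)
open Pool.Agent.H28.LF (Wd La Cd dm ds)
open Pool.Agent.H67.LF (avg_mono avg_add avg_mul avg_sum avg_abs ul_sum inv_set int_inv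
  dm_meas dm_01 dm_nonneg dm_le int_bdd Wd_meas)
open Pool.Agent.H28.GN

open Classical in
/-- the pointwise inequality -/
theorem pw {q : ℕ} {ι : Type} [Fintype ι] [DecidableEq ι] (I : Finset ι) (B : Set (ι → Fin q))
    (hC : CodeG I B) (v v' : ι → Fin q) (d : ι → ℝ) (hd : ∀ i, d i = if v i = v' i then 0 else 1) :
    ∑ i ∈ I, d i - ∑ i ∈ I, ∑ j ∈ univ.erase i, d i * d j ≤
      (if v ∈ B then 1 else 0) + (if v' ∈ B then 1 else 0) := by
  have hd01 : ∀ i, d i = 0 ∨ d i = 1 := by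
    intro i
    rw [hd i]
    split_ifs
    · exact Or.inl rfl
    · exact Or.inr rfl
  have hd0 : ∀ i, 0 ≤ d i := fun i => by rcases hd01 i with h | h <;> rw [h]; norm_num
  have hd1 : ∀ i, d i ≤ 1 := fun i => by rcases hd01 i with h | h <;> rw [h]; norm_num
  have hle : ∀ i j, j ≠ i → d j = 1 → d i - ∑ j ∈ univ.erase i, d i * d j ≤ 0 := by
    intro i j hji hj
    have h1 : d i * d j ≤ ∑ j ∈ univ.erase i, d i * d j :=
      Finset.single_le_sum (f := fun j => d i * d j) (fun j _ => mul_nonneg (hd0 i) (hd0 j))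
        (Finset.mem_erase.2 ⟨hji, Finset.mem_univ j⟩)
    rw [hj, mul_one] at h1
    linarith
  rw [← Finset.sum_sub_distrib]
  by_cases hB : v ∈ B ∨ v' ∈ B
  · have hr : (1 : ℝ) ≤ (if v ∈ B then 1 else 0) + (if v' ∈ B then 1 else 0) := by
      rcases hB with h | h
      · rw [if_pos h]
        split_ifs <;> norm_num
      · rw [if_pos h]
        split_ifs <;> norm_num
    refine le_trans ?_ hr
    by_cases hex : ∃ i0 ∈ I, d i0 = 1
    · obtain ⟨i0, hi0, h1⟩ := hex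
      rw [← Finset.add_sum_erase I _ hi0]
      have h2 : ∑ i ∈ I.erase i0, (d i - ∑ j ∈ univ.erase i, d i * d j) ≤ 0 :=
        Finset.sum_nonpos fun i hi => hle i i0 (Finset.ne_of_mem_erase hi).symm h1
      have h3 : 0 ≤ ∑ j ∈ univ.erase i0, d i0 * d j :=
        Finset.sum_nonneg fun j _ => mul_nonneg (hd0 _) (hd0 _)
      linarith
    · push Not at hex
      have h2 : ∀ i ∈ I, d i - ∑ j ∈ univ.erase i, d i * d j = 0 := by
        intro i hi
        have h3 : d i = 0 := (hd01 i).resolve_right (hex i hi)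
        rw [h3]
        simp
      rw [Finset.sum_congr rfl h2, Finset.sum_const_zero]
      norm_num
  · push Not at hB
    rw [if_neg hB.1, if_neg hB.2, add_zero]
    refine Finset.sum_nonpos fun i hi => ?_
    by_cases h : v i = v' i
    · have h3 : d i = 0 := by rw [hd i, if_pos h]
      rw [h3]
      simp
    · obtain ⟨j, hj, hj2⟩ := hC v v' hB.1 hB.2 i hi h
      exact hle i j hj (by rw [hd j, if_neg hj2])

section main

variable {Ω : Type} [MeasurableSpace Ω] {q R : ℕ}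

open Classical in
/-- the inequality for one prime -/
theorem one_prime {ι : Type} [Fintype ι] [DecidableEq ι] (P : Measure Ω) [IsProbabilityMeasure P]
    (T : Ω ≃ᵐ Ω) (p : ℕ) (pos : ι → Fin R) (I : Finset ι) (B : Set (ι → Fin q)) (a a' : Ω → Fin q)
    (A : Set Ω) (mp : MeasurePreserving T P P) (hC : CodeG I B) (ha : Measurable a)
    (ha' : Measurable a') (hA : MeasurableSet[Inv T 1] A) (hpos : Function.Injective pos) :
    (I.card : ℝ) * ∫ ω in A, dm a a' ω ∂P ≤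
      P.real (A ∩ {ω | Wd T a R p ω ∈ Lft pos B}) + P.real (A ∩ {ω | Wd T a' R p ω ∈ Lft pos B}) +
      ∑ i ∈ I, ∑ j ∈ univ.erase i,
        ∫ ω in A, dm a a' ω * dm a a' (T^[p * dif (pos i : ℕ) (pos j : ℕ)] ω) ∂P := by
  obtain ⟨hAm, hAi⟩ := inv_set hA
  have hdm : Measurable (dm a a') := dm_meas ha ha'
  set D : ι → Ω → ℝ := fun i ω => dm a a' (T^[p * ((pos i : ℕ) + 1)] ω) with hD
  have hDm : ∀ i, Measurable (D i) := fun i => hdm.comp (T.measurable.iterate _)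
  have hD0 : ∀ i ω, 0 ≤ D i ω := fun i ω => dm_nonneg a a' _
  have hD1 : ∀ i ω, D i ω ≤ 1 := fun i ω => dm_le a a' _
  have hDi : ∀ i, Integrable (D i) (P.restrict A) := fun i =>
    int_bdd (hDm i) 1 fun ω => abs_le.2 ⟨by linarith [hD0 i ω], hD1 i ω⟩
  have hDDi : ∀ i j, Integrable (fun ω => D i ω * D j ω) (P.restrict A) := fun i j =>
    int_bdd ((hDm i).mul (hDm j)) 1 fun ω => abs_le.2
      ⟨by linarith [mul_nonneg (hD0 i ω) (hD0 j ω)],
        mul_le_one₀ (hD1 i ω) (hD0 j ω) (hD1 j ω)⟩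
  -- the pointwise inequality
  have hpt : ∀ ω, ∑ i ∈ I, D i ω - ∑ i ∈ I, ∑ j ∈ univ.erase i, D i ω * D j ω ≤
      {ω | Wd T a R p ω ∈ Lft pos B}.indicator (fun _ => (1 : ℝ)) ω +
        {ω | Wd T a' R p ω ∈ Lft pos B}.indicator (fun _ => (1 : ℝ)) ω := by
    intro ω
    have h := pw I B hC (fun i => Wd T a R p ω (pos i)) (fun i => Wd T a' R p ω (pos i))
      (fun i => D i ω) (fun i => by
        change (if a (T^[p * ((pos i : ℕ) + 1)] ω) = a' (T^[p * ((pos i : ℕ) + 1)] ω) then 0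
          else 1) = if a (T^[p * ((pos i : ℕ) + 1)] ω) = a' (T^[p * ((pos i : ℕ) + 1)] ω) then
            (0 : ℝ) else 1
        by_cases hh : a (T^[p * ((pos i : ℕ) + 1)] ω) = a' (T^[p * ((pos i : ℕ) + 1)] ω)
        · rw [if_pos hh]
        · rw [if_neg hh])
    have e4 : {ω | Wd T a R p ω ∈ Lft pos B}.indicator (fun _ => (1 : ℝ)) ω =
        if (fun i => Wd T a R p ω (pos i)) ∈ B then 1 else 0 := by
      rw [Set.indicator_apply]
      rfl
    have e5 : {ω | Wd T a' R p ω ∈ Lft pos B}.indicator (fun _ => (1 : ℝ)) ω =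
        if (fun i => Wd T a' R p ω (pos i)) ∈ B then 1 else 0 := by
      rw [Set.indicator_apply]
      rfl
    rw [e4, e5]
    exact h
  -- integration
  have hBm : MeasurableSet {ω | Wd T a R p ω ∈ Lft pos B} := Wd_meas T ha R p _
  have hBm' : MeasurableSet {ω | Wd T a' R p ω ∈ Lft pos B} := Wd_meas T ha' R p _
  have i1 : Integrable (fun ω => ∑ i ∈ I, D i ω) (P.restrict A) :=
    integrable_finsetSum _ fun i _ => hDi i
  have i2 : Integrable (fun ω => ∑ i ∈ I, ∑ j ∈ univ.erase i, D i ω * D j ω)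
      (P.restrict A) :=
    integrable_finsetSum _ fun i _ => integrable_finsetSum _ fun j _ => hDDi i j
  have i4 : Integrable ({ω | Wd T a R p ω ∈ Lft pos B}.indicator (fun _ => (1 : ℝ)))
      (P.restrict A) := (integrable_const 1).indicator hBm
  have i5 : Integrable ({ω | Wd T a' R p ω ∈ Lft pos B}.indicator (fun _ => (1 : ℝ)))
      (P.restrict A) := (integrable_const 1).indicator hBm'
  have hint := integral_mono (μ := P.restrict A) (i1.sub i2) (i4.add i5) hpt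
  have r1 : ∫ ω in A, (∑ i ∈ I, D i ω -
      ∑ i ∈ I, ∑ j ∈ univ.erase i, D i ω * D j ω) ∂P =
      ∑ i ∈ I, ∫ ω in A, D i ω ∂P -
        ∑ i ∈ I, ∑ j ∈ univ.erase i, ∫ ω in A, D i ω * D j ω ∂P := by
    have r1b : ∫ ω in A, (∑ i ∈ I, D i ω -
          ∑ i ∈ I, ∑ j ∈ univ.erase i, D i ω * D j ω) ∂P =
        (∫ ω in A, ∑ i ∈ I, D i ω ∂P) -
          ∫ ω in A, ∑ i ∈ I, ∑ j ∈ univ.erase i, D i ω * D j ω ∂P :=
      integral_sub i1 i2
    rw [r1b, integral_finsetSum _ fun i _ => hDi i,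
      integral_finsetSum _ fun i _ => integrable_finsetSum _ fun j _ => hDDi i j]
    refine congrArg (fun x => _ - x) (Finset.sum_congr rfl fun i _ => ?_)
    rw [integral_finsetSum _ fun j _ => hDDi i j]
  have r2 : ∫ ω in A, ({ω | Wd T a R p ω ∈ Lft pos B}.indicator (fun _ => (1 : ℝ)) ω +
      {ω | Wd T a' R p ω ∈ Lft pos B}.indicator (fun _ => (1 : ℝ)) ω) ∂P =
      P.real (A ∩ {ω | Wd T a R p ω ∈ Lft pos B}) +
        P.real (A ∩ {ω | Wd T a' R p ω ∈ Lft pos B}) := by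
    rw [integral_add i4 i5, integral_indicator hBm, integral_indicator hBm',
      setIntegral_const, setIntegral_const, smul_eq_mul, smul_eq_mul, mul_one, mul_one,
      measureReal_restrict_apply hBm, measureReal_restrict_apply hBm', Set.inter_comm A,
      Set.inter_comm A]
  have r3 : ∀ i, ∫ ω in A, D i ω ∂P = ∫ ω in A, dm a a' ω ∂P := fun i =>
    int_inv mp hA (dm a a') hdm _
  set c : ℕ → ℝ := fun d => ∫ ω in A, dm a a' ω * dm a a' (T^[p * d] ω) ∂P with hc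
  have hlt : ∀ i j : ι, (pos i : ℕ) < pos j →
      ∫ ω in A, D i ω * D j ω ∂P = c ((pos j : ℕ) - pos i) := by
    intro i j hij
    have h1 := int_inv mp hA (fun ω => dm a a' ω * dm a a' (T^[p * ((pos j : ℕ) - pos i)] ω))
      (hdm.mul (hdm.comp (T.measurable.iterate _))) (p * ((pos i : ℕ) + 1))
    have h2 : ∀ ω, T^[p * ((pos j : ℕ) - pos i)] (T^[p * ((pos i : ℕ) + 1)] ω) =
        T^[p * ((pos j : ℕ) + 1)] ω := by
      intro ω
      rw [← Function.iterate_add_apply]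
      have : p * ((pos j : ℕ) - pos i) + p * ((pos i : ℕ) + 1) = p * ((pos j : ℕ) + 1) := by
        rw [← mul_add]
        congr 1
        omega
      rw [this]
    simp only [h2] at h1
    exact h1
  have r4 : ∀ i ∈ I, ∑ j ∈ univ.erase i, ∫ ω in A, D i ω * D j ω ∂P =
      ∑ j ∈ univ.erase i, c (dif (pos i : ℕ) (pos j : ℕ)) := by
    intro i _
    refine Finset.sum_congr rfl fun j hj => ?_
    have hne : j ≠ i := Finset.ne_of_mem_erase hj
    unfold dif
    rcases lt_trichotomy (pos i : ℕ) (pos j) with h | h | h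
    · rw [hlt i j h]
      congr 1
      omega
    · exact absurd (hpos (Fin.ext h.symm)) hne
    · have e1 : ∫ ω in A, D i ω * D j ω ∂P = ∫ ω in A, D j ω * D i ω ∂P :=
        integral_congr_ae (Filter.Eventually.of_forall fun ω => mul_comm _ _)
      rw [e1, hlt j i h]
      congr 1
      omega
  have r6 : ∑ i ∈ I, ∫ ω in A, D i ω ∂P = (I.card : ℝ) * ∫ ω in A, dm a a' ω ∂P := by
    rw [Finset.sum_congr rfl fun i _ => r3 i, Finset.sum_const, nsmul_eq_mul]
  have hint' : ∑ i ∈ I, ∫ ω in A, D i ω ∂P -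
        ∑ i ∈ I, ∑ j ∈ univ.erase i, ∫ ω in A, D i ω * D j ω ∂P ≤
      P.real (A ∩ {ω | Wd T a R p ω ∈ Lft pos B}) +
        P.real (A ∩ {ω | Wd T a' R p ω ∈ Lft pos B}) := by
    rw [← r1, ← r2]
    exact hint
  rw [r6, Finset.sum_congr rfl r4] at hint'
  linarith [hint']

/-- the inequality for one pattern -/
theorem one_pattern (hU : Pool.Agent.H67.AG.T_UL) {ι : Type} [Fintype ι] [DecidableEq ι]
    (P : Measure Ω) [IsProbabilityMeasure P] (T : Ω ≃ᵐ Ω) (U : Ultrafilter ℕ) (s : ℕ → ℝ)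
    (pos : ι → Fin R) (I : Finset ι) (B : ℕ → Set (ι → Fin q)) (a a' : Ω → Fin q) (A : Set Ω)
    (mp : MeasurePreserving T P P) (hs : ∀ p, s p = 0 ∨ s p = 1)
    (hpos : Function.Injective pos) (hC : ∀ p, CodeG I (B p)) (ha : Measurable a)
    (ha' : Measurable a') (hA : MeasurableSet[Inv T 1] A) :
    ds U s * (I.card : ℝ) * ∫ ω in A, dm a a' ω ∂P ≤
      La U s P T a (fun p => Lft pos (B p)) A + La U s P T a' (fun p => Lft pos (B p)) A +
      ∑ i ∈ I, ∑ j ∈ univ.erase i, Cd U P T (dm a a') A (dif (pos i : ℕ) (pos j : ℕ)) := by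
  classical
  obtain ⟨hAm, hAi⟩ := inv_set hA
  have hdm : Measurable (dm a a') := dm_meas ha ha'
  set mA : ℝ := ∫ ω in A, dm a a' ω ∂P with hmA
  set Fa : ℕ → ℝ := fun p => s p * P.real (A ∩ {ω | Wd T a R p ω ∈ Lft pos (B p)}) with hFa
  set Fa' : ℕ → ℝ := fun p => s p * P.real (A ∩ {ω | Wd T a' R p ω ∈ Lft pos (B p)}) with hFa'
  set c : ℕ → ℕ → ℝ := fun d p => ∫ ω in A, dm a a' ω * dm a a' (T^[p * d] ω) ∂P with hc
  have hs0 : ∀ p, 0 ≤ s p := fun p => by rcases hs p with h | h <;> rw [h]; norm_num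
  have hs1 : ∀ p, s p ≤ 1 := fun p => by rcases hs p with h | h <;> rw [h]; norm_num
  have hc0 : ∀ d p, 0 ≤ c d p := fun d p => integral_nonneg fun ω =>
    mul_nonneg (dm_nonneg a a' _) (dm_nonneg a a' _)
  have hc1 : ∀ d p, c d p ≤ 1 := by
    intro d p
    have h1 : c d p ≤ ∫ _ω in A, (1 : ℝ) ∂P := by
      refine integral_mono (int_bdd (hdm.mul (hdm.comp (T.measurable.iterate _))) 1 fun ω =>
        abs_le.2 ⟨?_, ?_⟩) (integrable_const 1) fun ω => ?_
      · have := mul_nonneg (dm_nonneg a a' ω) (dm_nonneg a a' (T^[p * d] ω))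
        change -1 ≤ dm a a' ω * dm a a' (T^[p * d] ω)
        linarith
      · exact mul_le_one₀ (dm_le a a' _) (dm_nonneg a a' _) (dm_le a a' _)
      · exact mul_le_one₀ (dm_le a a' _) (dm_nonneg a a' _) (dm_le a a' _)
    refine h1.trans ?_
    rw [setIntegral_const, smul_eq_mul, mul_one]
    exact measureReal_le_one
  have hP0 : ∀ E : Set Ω, 0 ≤ P.real E := fun E => measureReal_nonneg
  have hP1 : ∀ E : Set Ω, P.real E ≤ 1 := fun E => measureReal_le_one
  -- the pairs of positions as one index set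
  set S : Finset (Σ _ : ι, ι) := I.sigma fun i => univ.erase i with hS
  set dd : (Σ _ : ι, ι) → ℕ := fun x => dif (pos x.1 : ℕ) (pos x.2 : ℕ) with hdd
  have hsig : ∀ f : ℕ → ℝ, ∑ i ∈ I, ∑ j ∈ univ.erase i, f (dif (pos i : ℕ) (pos j : ℕ)) =
      ∑ x ∈ S, f (dd x) := by
    intro f
    rw [hS, Finset.sum_sigma]
  -- one prime with the flag
  have h1 : ∀ p, ((I.card : ℝ) * mA) * s p ≤ Fa p + Fa' p + ∑ x ∈ S, c (dd x) p := by
    intro p
    have hsum : 0 ≤ ∑ x ∈ S, c (dd x) p := Finset.sum_nonneg fun x _ => hc0 _ p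
    rcases hs p with h | h
    · simp only [hFa, hFa', h, mul_zero, zero_mul, zero_add]
      exact hsum
    · simp only [hFa, hFa', h, mul_one, one_mul]
      rw [← hsig fun d => c d p]
      exact one_prime P T p pos I (B p) a a' A mp (hC p) ha ha' hA hpos
  have bs : ∀ m, |avgP 2 m s| ≤ 1 := fun m => avg_abs 2 m s 1 zero_le_one fun p =>
    abs_le.2 ⟨by linarith [hs0 p], hs1 p⟩
  have bFa : ∀ m, |avgP 2 m Fa| ≤ 1 := fun m => avg_abs 2 m Fa 1 zero_le_one fun p =>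
    abs_le.2 ⟨by linarith [mul_nonneg (hs0 p) (hP0 (A ∩ {ω | Wd T a R p ω ∈ Lft pos (B p)}))],
      mul_le_one₀ (hs1 p) (hP0 _) (hP1 _)⟩
  have bFa' : ∀ m, |avgP 2 m Fa'| ≤ 1 := fun m => avg_abs 2 m Fa' 1 zero_le_one fun p =>
    abs_le.2 ⟨by linarith [mul_nonneg (hs0 p) (hP0 (A ∩ {ω | Wd T a' R p ω ∈ Lft pos (B p)}))],
      mul_le_one₀ (hs1 p) (hP0 _) (hP1 _)⟩
  have bc : ∀ (x : Σ _ : ι, ι) m, |avgP 2 m (c (dd x))| ≤ 1 := fun x m =>
    avg_abs 2 m (c (dd x)) 1 zero_le_one fun p =>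
      abs_le.2 ⟨by linarith [hc0 (dd x) p], hc1 (dd x) p⟩
  have h2 : ∀ m, ((I.card : ℝ) * mA) * avgP 2 m s ≤ (avgP 2 m Fa + avgP 2 m Fa') +
      ∑ x ∈ S, avgP 2 m (c (dd x)) := by
    intro m
    have h3 := avg_mono 2 m _ _ h1
    rw [avg_mul, avg_add, avg_add, avg_sum] at h3
    exact h3
  obtain ⟨hu1, hu2, hu3, hu4, hu5⟩ := hU U
  obtain ⟨⟨C', hC'⟩, hsumul⟩ := ul_sum hU U S (fun x m => avgP 2 m (c (dd x))) 1 bc
  have b1 : ∃ C, ∀ m, |((I.card : ℝ) * mA) * avgP 2 m s| ≤ C :=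
    ⟨|(I.card : ℝ) * mA| * 1, fun m => by
      rw [abs_mul]
      exact mul_le_mul_of_nonneg_left (bs m) (abs_nonneg _)⟩
  have b2 : ∃ C, ∀ m, |avgP 2 m Fa + avgP 2 m Fa'| ≤ C :=
    ⟨1 + 1, fun m => (abs_add_le _ _).trans (add_le_add (bFa m) (bFa' m))⟩
  have b3 : ∃ C, ∀ m, |∑ x ∈ S, avgP 2 m (c (dd x))| ≤ C := ⟨C', hC'⟩
  have b4 : ∃ C, ∀ m, |(avgP 2 m Fa + avgP 2 m Fa') +
      ∑ x ∈ S, avgP 2 m (c (dd x))| ≤ C := by
    obtain ⟨C2, h2'⟩ := b2
    exact ⟨C2 + C', fun m => (abs_add_le _ _).trans (add_le_add (h2' m) (hC' m))⟩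
  have h4 := hu2 (fun m => ((I.card : ℝ) * mA) * avgP 2 m s)
    (fun m => (avgP 2 m Fa + avgP 2 m Fa') +
      ∑ x ∈ S, avgP 2 m (c (dd x))) b1 b4
    (Filter.Eventually.of_forall h2)
  rw [hu4 (fun m => avgP 2 m s) _ ⟨1, bs⟩,
    hu3 (fun m => avgP 2 m Fa + avgP 2 m Fa') _ b2 b3,
    hu3 (fun m => avgP 2 m Fa) (fun m => avgP 2 m Fa') ⟨1, bFa⟩ ⟨1, bFa'⟩, hsumul] at h4
  have h5 : ds U s * (I.card : ℝ) * mA = ((I.card : ℝ) * mA) * ds U s := by ring
  rw [h5, hsig fun d => Cd U P T (dm a a') A d]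
  exact h4

end main

/-- Row PRI. -/
theorem pf_PRI (hU : Pool.Agent.H67.AG.T_UL) : T_PRI := by
  intro Ω _ P _ T U q R Pt ι _ _ _ _ s pos I B a a' A mp hU' hs hpos hC ha ha' hA
  have hcard : (0 : ℝ) < Fintype.card Pt := by exact_mod_cast Fintype.card_pos
  have h1 := Finset.sum_le_sum fun (t : Pt) (_ : t ∈ Finset.univ) =>
    one_pattern hU P T U (s t) (pos t) I (B t) a a' A mp (hs t) (hpos t) (hC t) ha ha' hA
  rw [← Finset.sum_mul, ← Finset.sum_mul, Finset.sum_add_distrib, Finset.sum_add_distrib] at h1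
  unfold dsG LaG Sp
  rw [← add_div, ← add_div, div_mul_eq_mul_div, div_mul_eq_mul_div]
  exact div_le_div_of_nonneg_right h1 hcard.le

end Pool.Agent.H82.GN
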